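import Pool.Agent.Helper23.MC.L04_a0

/-!
# MP_cb2931: Q2 for all exponents, in every dense set of primes

For every set `A` of primes of positive relative upper density, all positive reals
`c 0, …, c (l-1)` and every `N` there are `m ∈ A` and `n ≥ N` with `m + ⌊n ^ c i⌋ ∈ A` for all
`i`.
-/

set_option autoImplicit false

namespace Pool.Agent.Results.MP_cb2931_nt.AllExponents

theorem result (A : Set ℕ) (hA : ∀ p ∈ A, p.Prime)
    (hd : ∃ δ : ℝ, 0 < δ ∧ ∃ᶠ x : ℕ in Filter.atTop,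
      δ * (Nat.primeCounting x : ℝ) ≤ ({p ∈ A | p ≤ x}.ncard : ℝ))
    (l : ℕ) (c : Fin l → ℝ) (hc : ∀ i, 0 < c i) (N : ℕ) :
    ∃ m ∈ A, ∃ n : ℕ, N ≤ n ∧ ∀ i, m + ⌊(n : ℝ) ^ c i⌋₊ ∈ A :=
  Pool.Agent.Helper67.NX2.W.all_exponents A hA hd l c hc N

end Pool.Agent.Results.MP_cb2931_nt.AllExponents
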